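import Pool.Agent.H45.EGH.S2

/-!
# EGH, ANN: the dimension of annihilators
-/

set_option autoImplicit false

namespace Pool.EGH

open MvPolynomial

theorem t_ANN (hP : PAIStmt) (hD : GPDStmt) (hM : GPMStmt) : ANNStmt := by
  intro K _ _ N n Q hQ i j m hijm V hV
  obtain ⟨hfin, hmul, -, -⟩ := hM K N Q
  have hdim := (hD K N Q).2 n hQ
  have := hfin n
  have := hfin j
  have := hfin (n - j)
  -- the functional
  have h1 : Module.finrank K ↥(gp Q n) = Module.finrank K K := by
    rw [hdim n, Nat.choose_self, Module.finrank_self]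
  obtain ⟨e⟩ := FiniteDimensional.nonempty_linearEquiv_of_finrank_eq h1
  obtain ⟨Λ, hΛ⟩ := LinearMap.exists_extend (e : ↥(gp Q n) →ₗ[K] K)
  have hΛ0 : ∀ z ∈ gp Q n, Λ z = 0 → z = 0 := by
    intro z hz h
    have h2 : Λ z = e ⟨z, hz⟩ := by
      have := congrArg (fun f => f ⟨z, hz⟩) hΛ
      simpa using this
    rw [h2] at h
    have h3 := e.map_eq_zero_iff.1 h
    exact congrArg Subtype.val h3
  have hmem : ∀ a b : ℕ, ∀ x ∈ gp Q a, ∀ y ∈ gp Q b, x * y ∈ gp Q (a + b) := by
    intro a b x hx y hy
    rw [← hmul a b]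
    exact Submodule.mul_mem_mul hx hy
  have hj : j + (n - j) = n := by omega
  -- the pairing
  let P : ↥(gp Q j) →ₗ[K] Module.Dual K ↥(gp Q (n - j)) :=
    { toFun := fun y => Λ ∘ₗ (LinearMap.mulLeft K (y : PR K N ⧸ Q)) ∘ₗ (gp Q (n - j)).subtype
      map_add' := fun y y' => by
        ext z
        simp [add_mul]
      map_smul' := fun c y => by
        ext z
        show Λ ((c • (y : PR K N ⧸ Q)) * z) = c • Λ ((y : PR K N ⧸ Q) * z)
        rw [smul_mul_assoc, map_smul] }
  have hPa : ∀ y z, P y z = Λ ((y : PR K N ⧸ Q) * z) := fun _ _ => rfl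
  have hinj : Function.Injective P := by
    rw [injective_iff_map_eq_zero]
    intro y hy
    by_contra hne
    have hne' : (y : PR K N ⧸ Q) ≠ 0 := fun h => hne (Subtype.ext h)
    obtain ⟨z, hz, hz2⟩ := hP K N n Q hQ j (n - j) hj.le y y.2 hne'
    apply hz2
    have h3 := congrArg (fun f => f ⟨z, hz⟩) hy
    rw [hPa] at h3
    rw [mul_comm]
    refine hΛ0 _ ?_ (by simpa using h3)
    have := hmem j (n - j) _ y.2 z hz
    rwa [hj] at this
  have hsurj : Function.Surjective P := by
    rw [← LinearMap.injective_iff_surjective_of_finrank_eq_finrank]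
    · exact hinj
    · rw [Subspace.dual_finrank_eq, hdim, hdim, Nat.choose_symm (by omega)]
  -- the space
  have hW : gp Q m * V ≤ gp Q (n - j) := by
    have h4 : m + i = n - j := by omega
    rw [← h4, ← hmul m i]
    exact mul_le_mul' le_rfl hV
  have : Module.Finite K ↥(gp Q m * V) := Submodule.finiteDimensional_of_le hW
  have hres : Function.Surjective (Submodule.inclusion hW).dualMap :=
    LinearMap.dualMap_surjective_of_injective (Submodule.inclusion_injective hW)
  let ρ : ↥(gp Q j) →ₗ[K] Module.Dual K ↥(gp Q m * V) := (Submodule.inclusion hW).dualMap ∘ₗ P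
  have hρ : Function.Surjective ρ := hres.comp hsurj
  have hρa : ∀ y w, ρ y w = Λ ((y : PR K N ⧸ Q) * w) := fun _ _ => rfl
  have hk : (LinearMap.ker ρ).map (gp Q j).subtype = ann Q j V := by
    ext y
    rw [Submodule.mem_map]
    constructor
    · rintro ⟨⟨y, hy⟩, hy2, rfl⟩
      refine ⟨hy, fun v hv => ?_⟩
      by_contra hne
      obtain ⟨t, ht, ht2⟩ := hP K N n Q hQ (j + i) m (by omega) (y * v) (hmem j i y hy v (hV hv))
        hne
      apply ht2
      have h5 : t * v ∈ gp Q m * V := Submodule.mul_mem_mul ht hv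
      rw [LinearMap.mem_ker] at hy2
      have h6 := congrArg (fun f => f ⟨t * v, h5⟩) hy2
      rw [hρa] at h6
      have h7 : t * (y * v) = y * (t * v) := by ring
      rw [h7]
      refine hΛ0 _ ?_ (by simpa using h6)
      have := hmem j (n - j) y hy _ (hW h5)
      rwa [hj] at this
    · rintro ⟨hy, hy2⟩
      refine ⟨⟨y, hy⟩, ?_, rfl⟩
      rw [LinearMap.mem_ker]
      ext ⟨w, hw⟩
      rw [hρa]
      show Λ (y * w) = 0
      have h8 : y * w = 0 := by
        induction hw using Submodule.mul_induction_on' with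
        | mem_mul_mem t ht v hv =>
          have : y * (t * v) = t * (y * v) := by ring
          rw [this, hy2 v hv, mul_zero]
        | add a _ b _ ha hb => rw [mul_add, ha, hb, add_zero]
      rw [h8, map_zero]
  have h9 := LinearMap.finrank_range_add_finrank_ker ρ
  rw [LinearMap.range_eq_top.2 hρ, finrank_top, Subspace.dual_finrank_eq, hdim j] at h9
  rw [← hk, Submodule.finrank_map_subtype_eq, ← h9, add_comm]

end Pool.EGH
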