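import Pool.Agent.H45.EGH.S1

/-!
# EGH, BAC: base change to the algebraic closure
-/

set_option autoImplicit false

namespace Pool.EGH

open MvPolynomial

namespace Bac

variable {K : Type} [Field K] {N : ℕ} (F : Type) [Field F] [Algebra K F]

/-- The `F`-span of the image of an ideal is an ideal. -/
theorem mul_span (I : Ideal (PR K N)) (a x : PR F N)
    (hx : x ∈ Submodule.span F ((MvPolynomial.map (algebraMap K F)) '' (I : Set (PR K N)))) :
    a * x ∈ Submodule.span F ((MvPolynomial.map (algebraMap K F)) '' (I : Set (PR K N))) := by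
  induction a using MvPolynomial.induction_on generalizing x with
  | C c =>
    rw [MvPolynomial.C_mul']
    exact Submodule.smul_mem _ c hx
  | add p q hp hq =>
    rw [add_mul]
    exact add_mem (hp x hx) (hq x hx)
  | mul_X p n hp =>
    rw [mul_assoc]
    refine hp _ ?_
    clear hp p
    induction hx using Submodule.span_induction with
    | mem x hx =>
      obtain ⟨g, hg, rfl⟩ := hx
      refine Submodule.subset_span ⟨X n * g, I.mul_mem_left _ hg, ?_⟩
      rw [map_mul, map_X]
    | zero =>
      rw [mul_zero]
      exact zero_mem _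
    | add x y _ _ hx hy =>
      rw [mul_add]
      exact add_mem hx hy
    | smul c x _ hx =>
      rw [mul_smul_comm]
      exact Submodule.smul_mem _ c hx

theorem map_eq (I : Ideal (PR K N)) :
    (I.map (MvPolynomial.map (algebraMap K F))).restrictScalars F =
      Submodule.span F ((MvPolynomial.map (algebraMap K F)) '' (I : Set (PR K N))) := by
  apply le_antisymm
  · intro f hf
    rw [Submodule.restrictScalars_mem] at hf
    unfold Ideal.map Ideal.span at hf
    induction hf using Submodule.span_induction with
    | mem x hx => exact Submodule.subset_span hx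
    | zero => exact zero_mem _
    | add x y _ _ hx hy => exact add_mem hx hy
    | smul a x _ hx =>
      rw [smul_eq_mul]
      exact mul_span F I a x hx
  · rw [Submodule.span_le]
    rintro _ ⟨g, hg, rfl⟩
    exact Ideal.mem_map_of_mem _ hg

theorem hom_map (d : ℕ) (g : PR K N) :
    homogeneousComponent d (MvPolynomial.map (algebraMap K F) g) =
      MvPolynomial.map (algebraMap K F) (homogeneousComponent d g) := by
  ext m
  rw [coeff_homogeneousComponent, coeff_map, coeff_map, coeff_homogeneousComponent]
  split_ifs
  · rfl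
  · rw [map_zero]

/-- The components of the elements of the base change. -/
theorem hom_mem {I : Ideal (PR K N)} (hI : Hg I) (i : ℕ) {f : PR F N}
    (hf : f ∈ Submodule.span F ((MvPolynomial.map (algebraMap K F)) '' (I : Set (PR K N)))) :
    homogeneousComponent i f ∈ Submodule.span F ((MvPolynomial.map (algebraMap K F)) ''
      ((I.restrictScalars K ⊓ fm K N i : Submodule K (PR K N)) : Set (PR K N))) := by
  induction hf using Submodule.span_induction with
  | mem x hx =>
    obtain ⟨g, hg, rfl⟩ := hx
    rw [hom_map]
    exact Submodule.subset_span ⟨_, ⟨hI g hg i, homogeneousComponent_mem i g⟩, rfl⟩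
  | zero =>
    rw [map_zero]
    exact zero_mem _
  | add x y _ _ hx hy =>
    rw [map_add]
    exact add_mem hx hy
  | smul c x _ hx =>
    rw [map_smul]
    exact Submodule.smul_mem _ c hx

theorem hg_map {I : Ideal (PR K N)} (hI : Hg I) :
    Hg (I.map (MvPolynomial.map (algebraMap K F))) := by
  intro f hf d
  have h1 : f ∈ (I.map (MvPolynomial.map (algebraMap K F))).restrictScalars F := hf
  rw [map_eq] at h1
  have h2 := hom_mem F hI d h1
  have h3 : homogeneousComponent d f ∈
      (I.map (MvPolynomial.map (algebraMap K F))).restrictScalars F := by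
    rw [map_eq]
    refine Submodule.span_mono (Set.image_mono ?_) h2
    exact fun x hx => hx.1
  exact h3

theorem deg_map {I : Ideal (PR K N)} (hI : Hg I) (i : ℕ) :
    (I.map (MvPolynomial.map (algebraMap K F))).restrictScalars F ⊓ fm F N i =
      Submodule.span F ((MvPolynomial.map (algebraMap K F)) ''
        ((I.restrictScalars K ⊓ fm K N i : Submodule K (PR K N)) : Set (PR K N))) := by
  apply le_antisymm
  · rintro f ⟨h1, h2⟩
    rw [map_eq] at h1
    have h3 := hom_mem F hI i h1
    rw [homogeneousComponent_of_mem h2, if_pos rfl] at h3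
    exact h3
  · rw [Submodule.span_le]
    rintro _ ⟨g, ⟨hg1, hg2⟩, rfl⟩
    exact ⟨Ideal.mem_map_of_mem _ hg1, MvPolynomial.IsHomogeneous.map hg2 _⟩

theorem fm_map (i : ℕ) : fm F N i = Submodule.span F ((MvPolynomial.map (algebraMap K F)) ''
    ((fm K N i : Submodule K (PR K N)) : Set (PR K N))) := by
  have h := deg_map F (I := (⊤ : Ideal (PR K N))) (fun _ _ _ => Submodule.mem_top) i
  have e : ((⊤ : Ideal (PR K N)).restrictScalars K ⊓ fm K N i : Submodule K (PR K N)) =
      fm K N i := by
    ext x
    simp
  rw [Ideal.map_top, e] at h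
  rw [← h]
  ext x
  simp

theorem li_map {ι : Type*} [Fintype ι] {b : ι → PR K N} (hb : LinearIndependent K b) :
    LinearIndependent F (fun j => MvPolynomial.map (algebraMap K F) (b j)) := by
  rw [Fintype.linearIndependent_iff] at hb ⊢
  intro c hc j
  rw [← Module.forall_dual_apply_eq_zero_iff K]
  intro φ
  refine hb (fun j => φ (c j)) ?_ j
  ext m
  have h := congrArg (fun p => φ (coeff m p)) hc
  simp only [coeff_sum, coeff_smul, coeff_map, smul_eq_mul, coeff_zero, map_zero, map_sum] at h ⊢
  rw [← h]
  refine Finset.sum_congr rfl fun k _ => ?_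
  rw [mul_comm (c k), ← Algebra.smul_def, map_smul, smul_eq_mul, mul_comm]

theorem finrank_map (W : Submodule K (PR K N)) [Module.Finite K W] :
    Module.finrank F ↥(Submodule.span F ((MvPolynomial.map (algebraMap K F)) ''
      (W : Set (PR K N)))) = Module.finrank K W := by
  obtain ⟨b⟩ : Nonempty (Module.Basis (Fin (Module.finrank K W)) K W) :=
    ⟨Module.finBasis K W⟩
  have hb : LinearIndependent K (fun j => ((b j : W) : PR K N)) :=
    b.linearIndependent.map' W.subtype (Submodule.ker_subtype W)
  have h1 := li_map F hb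
  have h2 : Submodule.span F ((MvPolynomial.map (algebraMap K F)) '' (W : Set (PR K N))) =
      Submodule.span F (Set.range fun j => MvPolynomial.map (algebraMap K F) (b j : PR K N)) := by
    apply le_antisymm
    · rw [Submodule.span_le]
      rintro _ ⟨g, hg, rfl⟩
      have h3 : g = ∑ j, (b.repr ⟨g, hg⟩ j) • ((b j : W) : PR K N) := by
        have h4 := congrArg (Subtype.val) (b.sum_repr ⟨g, hg⟩)
        rw [Submodule.coe_sum] at h4
        exact h4.symm
      rw [h3, map_sum]
      refine Submodule.sum_mem _ fun j _ => ?_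
      rw [MvPolynomial.smul_eq_C_mul, map_mul, map_C, ← MvPolynomial.smul_eq_C_mul]
      exact Submodule.smul_mem _ _ (Submodule.subset_span ⟨j, rfl⟩)
    · refine Submodule.span_mono ?_
      rintro _ ⟨j, rfl⟩
      exact ⟨_, (b j).2, rfl⟩
  rw [h2, finrank_span_eq_card h1, Fintype.card_fin]

theorem fin_fm (i : ℕ) : Module.Finite K ↥(fm K N i) :=
  Module.Finite.iff_fg.2 (homogeneousSubmodule_fg (Fin N) K i)

theorem fin_inf (I : Ideal (PR K N)) (i : ℕ) :
    Module.Finite K ↥(I.restrictScalars K ⊓ fm K N i : Submodule K (PR K N)) := by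
  haveI := fin_fm (K := K) (N := N) i
  exact Submodule.finiteDimensional_of_le (S₂ := fm K N i) inf_le_right

theorem hf_map {I : Ideal (PR K N)} (hI : Hg I) (i : ℕ) :
    hf (I.map (MvPolynomial.map (algebraMap K F))) i = hf I i := by
  haveI := fin_fm (K := K) (N := N) i
  haveI := fin_inf (K := K) (N := N) I i
  unfold hf
  rw [deg_map F hI i, fm_map (K := K) F i, finrank_map, finrank_map]

attribute [local instance] MvPolynomial.algebraMvPolynomial

theorem flat_map : Module.Flat (PR K N) (PR F N) :=
  Module.Flat.isBaseChange K (PR K N) F (PR F N)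
    (Algebra.IsPushout.out (R := K) (S := PR K N) (R' := F) (S' := PR F N))

theorem wr_map {rs : List (PR K N)} (h : RingTheory.Sequence.IsWeaklyRegular (PR K N) rs) :
    RingTheory.Sequence.IsWeaklyRegular (PR F N)
      (rs.map (MvPolynomial.map (algebraMap K F))) := by
  haveI := flat_map (K := K) (N := N) F
  exact h.of_flat (S := PR F N)

end Bac

theorem t_BAC : BACStmt := by
  intro K _ N I rs hI hrs hreg
  refine ⟨I.map (MvPolynomial.map (algebraMap K (AlgebraicClosure K))),
    rs.map (MvPolynomial.map (algebraMap K (AlgebraicClosure K))), Bac.hg_map _ hI,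
    List.length_map _, ?_, Bac.wr_map _ hreg, fun i => Bac.hf_map _ hI i⟩
  intro f hf
  rw [List.mem_map] at hf
  obtain ⟨g, hg, rfl⟩ := hf
  exact ⟨MvPolynomial.IsHomogeneous.map (hrs g hg).1 _, Ideal.mem_map_of_mem _ (hrs g hg).2⟩

end Pool.EGH
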