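import Pool.Agent.H45.EGH.S2
import Pool.Agent.H29.EGH.HGA

/-!
# EGH, ANV: the elements killed by a space of linear forms
-/

set_option autoImplicit false

namespace Pool.EGH

open MvPolynomial

namespace Anv

variable {K : Type} [Field K] {N : ℕ}

theorem fin_fm (i : ℕ) : Module.Finite K ↥(fm K N i) :=
  Module.Finite.iff_fg.2 (homogeneousSubmodule_fg (Fin N) K i)

theorem fin_gp (Q : Ideal (PR K N)) (i : ℕ) : Module.Finite K ↥(gp Q i) := by
  have := fin_fm (K := K) (N := N) i
  exact Module.Finite.map _ _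

theorem ann_le (Q : Ideal (PR K N)) (s : ℕ) (V : Submodule K (PR K N ⧸ Q)) :
    ann Q s V ≤ gp Q s := fun _ h => h.1

/-- The space of linear forms over the smaller complete intersection. -/
theorem step_dim {Q Q' : Ideal (PR K N)} (hQ : Hg Q) {l : PR K N} (hl : l ∈ fm K N 1)
    (hle : Q' ≤ Q ⊔ Ideal.span {l}) {V : Submodule K (PR K N ⧸ Q)} (hV : V ≤ gp Q 1)
    (hlV : Ideal.Quotient.mk Q l ∈ V) :
    Module.finrank K V ≤ Module.finrank K ↥((fm K N 1 ⊓ V.comap
      (Ideal.Quotient.mkₐ K Q).toLinearMap).map (Ideal.Quotient.mkₐ K Q').toLinearMap) + 1 := by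
  have := fin_fm (K := K) (N := N) 1
  obtain ⟨T, hT⟩ : ∃ T : Submodule K (PR K N), T = fm K N 1 ⊓ V.comap
      (Ideal.Quotient.mkₐ K Q).toLinearMap := ⟨_, rfl⟩
  have hTf : Module.Finite K T := Submodule.finiteDimensional_of_le (S₂ := fm K N 1) (by
    rw [hT]; exact inf_le_left)
  rw [← hT]
  have hTm : ∀ f : PR K N, f ∈ T ↔ f ∈ fm K N 1 ∧ Ideal.Quotient.mk Q f ∈ V := by
    intro f
    rw [hT]
    exact Iff.rfl
  obtain ⟨α, hα⟩ : ∃ α : ↥T →ₗ[K] PR K N ⧸ Q, α = (Ideal.Quotient.mkₐ K Q).toLinearMap ∘ₗ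
    T.subtype := ⟨_, rfl⟩
  obtain ⟨β, hβ⟩ : ∃ β : ↥T →ₗ[K] PR K N ⧸ Q', β = (Ideal.Quotient.mkₐ K Q').toLinearMap ∘ₗ
    T.subtype := ⟨_, rfl⟩
  have hαa : ∀ f : T, α f = Ideal.Quotient.mk Q (f : PR K N) := fun f => by rw [hα]; rfl
  have hβa : ∀ f : T, β f = Ideal.Quotient.mk Q' (f : PR K N) := fun f => by rw [hβ]; rfl
  have r1 : LinearMap.range α = V := by
    apply le_antisymm
    · rintro _ ⟨f, rfl⟩
      rw [hαa]
      exact ((hTm _).1 f.2).2
    · intro v hv
      obtain ⟨f, hf, rfl⟩ := hV hv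
      exact ⟨⟨f, (hTm f).2 ⟨hf, hv⟩⟩, hαa _⟩
  have r2 : LinearMap.range β = T.map (Ideal.Quotient.mkₐ K Q').toLinearMap := by
    rw [hβ, LinearMap.range_comp, Submodule.range_subtype]
  have n1 := LinearMap.finrank_range_add_finrank_ker α
  have n2 := LinearMap.finrank_range_add_finrank_ker β
  rw [r1] at n1
  rw [r2] at n2
  obtain ⟨x, hx⟩ : ∃ x : T, (x : PR K N) = l := ⟨⟨l, (hTm l).2 ⟨hl, hlV⟩⟩, rfl⟩
  have hk : LinearMap.ker β ≤ LinearMap.ker α ⊔ Submodule.span K {x} := by
    intro f hf
    rw [LinearMap.mem_ker, hβa, Ideal.Quotient.eq_zero_iff_mem] at hf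
    obtain ⟨a, ha, b, hb, hab⟩ := Submodule.mem_sup.1 (hle hf)
    obtain ⟨t, rfl⟩ := Ideal.mem_span_singleton'.1 hb
    have h1 : (f : PR K N) ∈ fm K N 1 := ((hTm _).1 f.2).1
    have h2 := congrArg (homogeneousComponent 1) hab
    rw [map_add, homogeneousComponent_of_mem h1, if_pos rfl, mul_comm t l,
      HGA.hc_mul (d := 1) hl t 0, homogeneousComponent_zero] at h2
    have h3 : l * C (coeff 0 t) = coeff 0 t • l := by
      rw [mul_comm, C_mul']
    rw [h3] at h2
    obtain ⟨c, hc⟩ : ∃ c : K, c = coeff 0 t := ⟨_, rfl⟩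
    rw [← hc] at h2
    obtain ⟨g, hg⟩ : ∃ g : T, g = f - c • x := ⟨_, rfl⟩
    have h4 : (g : PR K N) = homogeneousComponent 1 a := by
      rw [hg, Submodule.coe_sub, Submodule.coe_smul, hx, ← h2, add_sub_cancel_right]
    have h5 : f = g + c • x := by rw [hg, sub_add_cancel]
    rw [h5]
    refine Submodule.add_mem_sup ?_ (Submodule.smul_mem _ _ (Submodule.mem_span_singleton_self _))
    rw [LinearMap.mem_ker, hαa, Ideal.Quotient.eq_zero_iff_mem, h4]
    exact hQ a ha 1
  have h5 := Submodule.finrank_mono hk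
  have h6 := Submodule.finrank_add_le_finrank_add_finrank (LinearMap.ker α)
    (Submodule.span K {x})
  have h7 : Module.finrank K ↥(Submodule.span K {x}) ≤ 1 := by
    refine (finrank_span_le_card _).trans ?_
    simp
  omega

end Anv

theorem t_ANV (hK : KILStmt) (hD : GPDStmt) : ANVStmt := by
  intro K _ _ N n
  induction n with
  | zero =>
    intro Q hQ V hV s hs
    have := Anv.fin_gp Q 1
    have h1 : Module.finrank K ↥(gp Q 1) = 0 := (hD K N Q).2 0 hQ 1
    have h2 := Submodule.finrank_mono hV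
    have h3 : Module.finrank K V = 0 := by omega
    have := Anv.fin_gp Q s
    have h4 := Submodule.finrank_mono (Anv.ann_le Q s V)
    rw [(hD K N Q).2 0 hQ s] at h4
    rw [h3]
    have : s = 0 := by omega
    subst this
    simpa using h4
  | succ n ih =>
    intro Q hQ V hV s hs
    have := Anv.fin_gp Q s
    by_cases hV0 : V = ⊥
    · have h4 := Submodule.finrank_mono (Anv.ann_le Q s V)
      rw [(hD K N Q).2 (n + 1) hQ s] at h4
      rw [hV0, finrank_bot, Nat.sub_zero, Nat.choose_symm hs, ← hV0]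
      exact h4
    obtain ⟨l', hl'V, hl'0⟩ := Submodule.exists_mem_ne_zero_of_ne_bot hV0
    obtain ⟨l, hl, hll⟩ := hV hl'V
    have hll' : Ideal.Quotient.mk Q l = l' := hll
    subst hll'
    have hlQ : l ∉ Q := fun h => hl'0 (Ideal.Quotient.eq_zero_iff_mem.2 h)
    cases s with
    | zero =>
      have h1 : ann Q 0 V = ⊥ := by
        rw [eq_bot_iff]
        rintro z ⟨⟨f, hf, rfl⟩, hz2⟩
        have h2 : f = C (coeff 0 f) := by
          rw [← homogeneousComponent_zero, homogeneousComponent_of_mem hf, if_pos rfl]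
        have h3 := hz2 _ hl'V
        have h4 : (Ideal.Quotient.mkₐ K Q).toLinearMap f * Ideal.Quotient.mk Q l =
            coeff 0 f • Ideal.Quotient.mk Q l := by
          change Ideal.Quotient.mk Q f * Ideal.Quotient.mk Q l = _
          rw [h2, ← map_mul, coeff_C, if_pos rfl, C_mul']
          rfl
        rw [h4, smul_eq_zero] at h3
        rcases h3 with h3 | h3
        · rw [h2, h3, C_0, map_zero]
          exact zero_mem _
        · exact absurd h3 hl'0
      rw [h1, finrank_bot]
      exact Nat.zero_le _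
    | succ s =>
      obtain ⟨Q', hQ', hlQ', hle, φ, hφi, hφ⟩ := hK K N n Q l hQ hl hlQ
      have hQh : Hg Q := by
        obtain ⟨k, _, hk⟩ := hQ
        exact (t_HGA K N).2.2.2 _ _ _ hk
      have hd := Anv.step_dim hQh hl hle hV hl'V
      obtain ⟨V', hV'⟩ : ∃ V' : Submodule K (PR K N ⧸ Q'), V' = (fm K N 1 ⊓ V.comap
        (Ideal.Quotient.mkₐ K Q).toLinearMap).map (Ideal.Quotient.mkₐ K Q').toLinearMap :=
        ⟨_, rfl⟩
      rw [← hV'] at hd
      have hV'1 : V' ≤ gp Q' 1 := by
        rw [hV']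
        exact Submodule.map_mono inf_le_left
      have h1 := ih Q' hQ' V' hV'1 s (by omega)
      have := Anv.fin_gp Q' s
      have : Module.Finite K ↥(ann Q' s V') := Submodule.finiteDimensional_of_le
        (Anv.ann_le Q' s V')
      -- the map
      have hker : ∀ z ∈ ann Q (s + 1) V,
          z ∈ LinearMap.ker (LinearMap.lsmul (PR K N) (PR K N ⧸ Q) l) := by
        intro z hz
        rw [LinearMap.mem_ker, LinearMap.lsmul_apply]
        have h2 := hz.2 _ hl'V
        rw [mul_comm] at h2
        exact h2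
      let ψ : ↥(ann Q (s + 1) V) →ₗ[K] ↥(ann Q' s V') :=
        { toFun := fun z => ⟨φ ⟨z, hker z z.2⟩, hφ s z (hker z z.2) z.2.1, fun v hv => by
            rw [hV'] at hv
            obtain ⟨f, hf, rfl⟩ := hv
            change _ * Ideal.Quotient.mk Q' f = 0
            have h3 : φ ⟨z, hker z z.2⟩ * Ideal.Quotient.mk Q' f =
                f • φ ⟨z, hker z z.2⟩ := by
              rw [mul_comm]
              rfl
            rw [h3, ← map_smul]
            have h4 : f • (⟨z, hker z z.2⟩ :
                ↥(LinearMap.ker (LinearMap.lsmul (PR K N) (PR K N ⧸ Q) l))) = 0 := by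
              apply Subtype.ext
              change f • (z : PR K N ⧸ Q) = 0
              have h5 := z.2.2 _ hf.2
              rw [mul_comm] at h5
              exact h5
            rw [h4, map_zero]⟩
          map_add' := fun z z' => by
            apply Subtype.ext
            exact map_add φ (⟨z, hker z z.2⟩ :
              ↥(LinearMap.ker (LinearMap.lsmul (PR K N) (PR K N ⧸ Q) l))) ⟨z', hker z' z'.2⟩
          map_smul' := fun c z => by
            apply Subtype.ext
            change φ _ = c • φ _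
            have h6 : (⟨((c • z : ↥(ann Q (s + 1) V)) : PR K N ⧸ Q), hker _ (c • z).2⟩ :
                ↥(LinearMap.ker (LinearMap.lsmul (PR K N) (PR K N ⧸ Q) l))) =
                (C c : PR K N) • ⟨z, hker z z.2⟩ := by
              apply Subtype.ext
              change c • (z : PR K N ⧸ Q) = (C c : PR K N) • (z : PR K N ⧸ Q)
              rw [← MvPolynomial.algebraMap_eq, algebraMap_smul]
            rw [h6, map_smul, ← MvPolynomial.algebraMap_eq, algebraMap_smul] }
      have hψ : Function.Injective ψ := by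
        intro z z' h
        have h7 := congrArg Subtype.val h
        have h8 := Subtype.mk.inj (hφi h7)
        exact Subtype.ext h8
      have h9 := LinearMap.finrank_le_finrank_of_injective hψ
      refine h9.trans (h1.trans ?_)
      have h10 : n - s = n + 1 - (s + 1) := by omega
      rw [h10]
      apply Nat.choose_le_choose
      omega

end Pool.EGH
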